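import Pool.Agent.H453R2.Thue.Final

set_option autoImplicit false

namespace Pool.Agent.Results.MP_e734ed_nt.NearSquares

/-- A power lower bound for `|y^2 - x^3|` when `√x` is close to a rational number `p/q`
(for `q = 1`: when `x` is close to a perfect square).  For `0 < δ ≤ 1/10` and
`0 < θ < 6δ/(1+2δ) - δ` (e.g. `θ = 4δ` if `δ < 1/10`) there is `c > 0` such that
`0 < |q^2 x - p^2| ≤ |q^2 x|^(1/2-δ)` implies `q^6 |y^2 - x^3| ≥ c |q^2 x|^θ`. -/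
theorem result (δ θ : ℝ) (hδ : 0 < δ) (hδ1 : δ ≤ 1 / 10) (hθ : 0 < θ)
    (h : θ < 6 * δ / (1 + 2 * δ) - δ) :
    ∃ c : ℝ, 0 < c ∧ ∀ x y p q : ℤ, 0 < q → y ^ 2 ≠ x ^ 3 →
      0 < |((q : ℝ) ^ 2 * x) - p ^ 2| →
      |((q : ℝ) ^ 2 * x) - p ^ 2| ≤ |(q : ℝ) ^ 2 * x| ^ (1 / 2 - δ) →
      c * |(q : ℝ) ^ 2 * x| ^ θ ≤ (q : ℝ) ^ 6 * |(y : ℝ) ^ 2 - x ^ 3| := by
  obtain ⟨c, hc, H⟩ := Pool.Agent.H453R2.Thue.near_square hδ hδ1 hθ h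
  refine ⟨c, hc, ?_⟩
  intro x y p q hq hne hpos hle
  have h1 := H (q ^ 2 * x) (q ^ 3 * y) p ?_ ?_ ?_
  · push_cast at h1
    have e1 : |((q : ℝ) ^ 3 * y) ^ 2 - ((q : ℝ) ^ 2 * x) ^ 3|
        = (q : ℝ) ^ 6 * |(y : ℝ) ^ 2 - x ^ 3| := by
      rw [show ((q : ℝ) ^ 3 * y) ^ 2 - ((q : ℝ) ^ 2 * x) ^ 3
        = (q : ℝ) ^ 6 * ((y : ℝ) ^ 2 - x ^ 3) by ring, abs_mul,
        abs_of_pos (show (0 : ℝ) < (q : ℝ) ^ 6 by positivity)]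
    rw [e1] at h1
    exact h1
  · intro h2
    apply hne
    have h3 : q ^ 6 * (y ^ 2 - x ^ 3) = 0 := by linear_combination h2
    have h4 := (mul_eq_zero.mp h3).resolve_left (pow_ne_zero 6 hq.ne')
    linarith
  · intro h2
    have h3 : ((q : ℝ) ^ 2 * x) - p ^ 2 = 0 := by
      have : ((q ^ 2 * x : ℤ) : ℝ) = ((p ^ 2 : ℤ) : ℝ) := by rw [h2]
      push_cast at this
      linarith
    rw [h3] at hpos
    simp at hpos
  · push_cast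
    exact hle

end Pool.Agent.Results.MP_e734ed_nt.NearSquares
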