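import Pool.Agent.H925R.Hall.Final

/-!
Exceptions to the weak form of Hall's conjecture are sparse: uniformly in `0 ≤ δ ≤ 1/2` there are
at most `K X ^ (1/3 - δ/6 + ε)` pairs of integers `(x, y)` with `|x| ≤ X`, `y ^ 2 ≠ x ^ 3` and
`|y ^ 2 - x ^ 3| ≤ C |x| ^ (1/2 - δ)`.
-/

set_option autoImplicit false

namespace Pool.Agent.Results.MP_e734ed_nt.SparseExceptions

theorem result (C ε : ℝ) (hε : 0 < ε) : ∃ K : ℝ, ∀ δ : ℝ, 0 ≤ δ → δ ≤ 1 / 2 →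
    ∀ X : ℝ, 1 ≤ X →
      {e : ℤ × ℤ | |(e.1 : ℝ)| ≤ X ∧ e.2 ^ 2 ≠ e.1 ^ 3 ∧
        |(e.2 : ℝ) ^ 2 - (e.1 : ℝ) ^ 3| ≤ C * |(e.1 : ℝ)| ^ (1 / 2 - δ)}.Finite ∧
      ({e : ℤ × ℤ | |(e.1 : ℝ)| ≤ X ∧ e.2 ^ 2 ≠ e.1 ^ 3 ∧
        |(e.2 : ℝ) ^ 2 - (e.1 : ℝ) ^ 3| ≤ C * |(e.1 : ℝ)| ^ (1 / 2 - δ)}.ncard : ℝ) ≤
        K * X ^ (1 / 3 - δ / 6 + ε) := by
  obtain ⟨K, hK⟩ := Pool.Agent.H925R.Hall.main C ε hε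
  refine ⟨K, fun δ h0 h1 X hX => ?_⟩
  have h := hK (1 / 2 - δ) (by linarith) (by linarith) X hX
  have he : 1 / 4 + (1 / 2 - δ) / 6 + ε = 1 / 3 - δ / 6 + ε := by ring
  rw [he] at h
  exact h

end Pool.Agent.Results.MP_e734ed_nt.SparseExceptions
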